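import Pool.Agent.Q57.PL.LogMoment

/-!
# MP_f8720a_ag: Kato's log monodromy-weight conjecture from approximate laws

`C` is the class of the projective log schemes over a log point over a finite field with `q` elements
which have an SNCL log blow-up (geometrically connected, of pure dimension), see `OneSidedLog`; it is
closed under products. `LogTheory C Ω` is the cohomology `H^j` with the Frobenius `F`, the monodromy
operator `N` and the weight filtrations `P`, `IsKnown` are its known properties.

For a log scheme `Y` of the class let `W(Y)` be the sum of the `(w - j)² dim gr^P_w H^j(Y)` over all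
`j` and `w`, `R(Y) = 2 ∑ k rank (N^k)` on `H^*(Y)`, and, for the monodromy filtration `M` of `H^*(Y)`,
`within M L` the number of the eigenvalues of `F` on the graded pieces `M_s / M_(s-1)` whose weight
differs from the one predicted by Kato's conjecture by at most `L`.
-/

set_option autoImplicit false

open Module

universe u v w

namespace Pool.Agent.Results.MP_f8720a_ag.ApproximateLawsLog

open Pool.Agent.Y143 Pool.Agent.Y163.MW Pool.Agent.Y163.MW.Coh Pool.Agent.Q173.OG
  Pool.Agent.Q173.AL Pool.Agent.Q57.PL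

section

variable {C : Type u} {Ω : Type w} [Field Ω]

/-- `W(Y)`: the sum of the `(w - j)² dim gr^P_w H^j(Y)`. -/
noncomputable def weightMoment (T : LogTheory.{u, v, w} C Ω) (Y : C) : ℤ := (coh T Y).moment

/-- `R(Y) = 2 ∑ k rank (N^k)` on `H^*(Y)`. -/
noncomputable def rankMoment (T : LogTheory.{u, v, w} C Ω) (Y : C) : ℤ := (T.H Y).totRankMoment

/-- `b(Y) = dim H^*(Y)`. -/
noncomputable def betti (T : LogTheory.{u, v, w} C Ω) (Y : C) : ℕ := finrank Ω (T.H Y).V

/-- Always `R(X) ≤ W(X)`, and Kato's conjecture for `X` is the equality. -/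
def Moments (T : LogTheory.{u, v, w} C Ω) : Prop :=
  ∀ X : C, rankMoment T X ≤ weightMoment T X ∧ (rankMoment T X = weightMoment T X ↔ T.Kato X)

/-- One log scheme, second moments: an error less than `(n + 1) b(X)^n` on `X ^ (n + 1)` is allowed. -/
def MomentCriterion (T : LogTheory.{u, v, w} C Ω) : Prop :=
  ∀ (X : C) (n : ℕ), weightMoment T (T.pw X n) <
    rankMoment T (T.pw X n) + (n + 1) * (betti T X : ℤ) ^ n → T.Kato X

/-- One log scheme, numbers of eigenvalues: a proportion of more than
`(2 L + 1) / √(1 + (n + 1) / (2 b(X)))` of eigenvalues on `X ^ (n + 1)` which have the predicted weight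
up to an error `L` suffices. -/
def CountCriterion [CharZero Ω] (T : LogTheory.{u, v, w} C Ω) (q : ℕ) : Prop :=
  ∀ (X : C) (n L : ℕ) (M : ℤ → Submodule Ω (T.H (T.pw X n)).V),
    IsMonodromyFiltrationOn ⊤ (T.H (T.pw X n)).N M →
    (2 * L + 1) * (betti T X : ℝ) ^ (n + 1) <
      (within (T.H (T.pw X n)) q M L : ℝ) * √(1 + ((n + 1 : ℕ) : ℝ) / (2 * (betti T X : ℝ))) →
      T.Kato X

/-- `W(Y) ≤ R(Y) + o(dim Y) b(Y)`. -/
def SmallMoments (T : LogTheory.{u, v, w} C Ω) : Prop :=
  ∀ ε : ℝ, 0 < ε → ∃ D : ℕ, ∀ Y : C, D ≤ T.dim Y →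
    (weightMoment T Y : ℝ) ≤ rankMoment T Y + ε * T.dim Y * betti T Y

/-- For some `L` much more than a proportion `(2 L + 1) / √(dim Y)` of the eigenvalues have the
predicted weight up to an error `L`. -/
def ManyNear [CharZero Ω] (T : LogTheory.{u, v, w} C Ω) (q : ℕ) : Prop :=
  ∀ A : ℝ, ∃ D : ℕ, ∀ Y : C, D ≤ T.dim Y → ∀ M : ℤ → Submodule Ω (T.H Y).V,
    IsMonodromyFiltrationOn ⊤ (T.H Y).N M → ∃ L : ℕ,
      A * (2 * L + 1) * betti T Y ≤ √(T.dim Y : ℝ) * within (T.H Y) q M L

end

/-- **Kato's log monodromy-weight conjecture from approximate laws.** -/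
theorem result {C : Type u} {Ω : Type w} [Field Ω] [CharZero Ω] [IsAlgClosed Ω]
    {T : LogTheory.{u, v, w} C Ω} {q : ℕ} (hq : 1 < q) (hT : T.IsKnown q) :
    Moments T ∧ MomentCriterion T ∧ CountCriterion T q ∧
      List.TFAE [
        ∀ X : C, 1 ≤ T.dim X → T.Kato X,
        SmallMoments T,
        ManyNear T q] := by
  have hW : ∀ Y, weightMoment T Y = (T.H Y).totWeightMoment q := fun Y =>
    LogCoh.moment_eq hq (known_coh hT Y)
  have hK : ∀ X, T.Kato X ↔ ∀ m, (T.H X).MWPure q m := fun X => T.kato_iff hq hT X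
  have hall : (∀ X : C, 1 ≤ T.dim X → T.Kato X) ↔
      ∀ X : C, 1 ≤ T.dim X → ∀ m, (T.H X).MWPure q m := by simp only [hK]
  have hsm : SmallMoments T ↔ L.SmallMoments T.toPTheory q := by
    unfold SmallMoments L.SmallMoments
    simp only [hW]
    rfl
  refine ⟨fun X => ?_, fun X n h => ?_, fun X n L M hM h => ?_, ?_⟩
  · rw [hW, hK]
    exact L.moment_tot hq (hT.known.pre X)
  · rw [hK]
    by_contra hX
    rw [hW] at h
    exact absurd (L.moments_pow hT.known hq hX n) (not_le.2 h)
  · rw [hK]
    by_contra hX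
    exact absurd (Pool.Agent.Q57.PL.L.within_pow hT.known hq hX n L hM) (not_le.2 h)
  · rw [hall, hsm]
    tfae_have 1 → 2 := L.moments_of_pure hT.known hq
    tfae_have 2 → 1 := fun h X hd => L.pure_of_moments hT.known hq h X hd
    tfae_have 1 → 3 := L.near_of_pure hT.known hq
    tfae_have 3 → 1 := fun h X hd => L.pure_of_near hT.known hq h X hd
    tfae_finish

end Pool.Agent.Results.MP_f8720a_ag.ApproximateLawsLog
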