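import Pool.Agent.Q173.CP.Tate
import Pool.Agent.Q173.OG.Log

/-!
# MP_f8720a_ag: Kato's log monodromy-weight conjecture and Galois cohomology at the central points

`C` is the class of the projective log schemes over a log point `s` over a finite field with `q`
elements which have an SNCL log blow-up (see `OneSidedLog`). It is closed under products.
`LogTheory C Ω` is the cohomology `H^j` with the Frobenius `F`, the monodromy operator `N` and the
weight filtrations `P`. For the representation `V = H^m(X)(r)` of the Kummer étale fundamental group of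
`s` (on which `N` is the logarithm of the tame generator) the groups `H^i(s, V)` are the cohomology
groups of the complex

  `V → V ⊕ V → V`,  `x ↦ ((F' - 1) x, N x)`,  `(a, b) ↦ N a - (q F' - 1) b`,  `F' = q ^ (-r) F`.

`IsCentral T q E good` are the known properties: Frobenius weights, Poincare duality, Künneth formula,
`P` is the filtration by the weights of `F`, the cohomology of a split degenerate elliptic curve `E`
(a cycle of projective lines) and of smooth projective varieties over the finite field with the log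
structure of the base (`good A`), and the theorem of Honda and Tate: for every eigenvalue `α` of `F` on
the cohomology of a member of `C` there is an abelian variety `A` over the finite field such that
`q ^ a / α` is an eigenvalue of `F` on the cohomology of `A` for some `a`.

Kato's conjecture implies that `H^m(Y)(r)` has no nonzero invariants if `m < 2 r`, and that
`H^i(s, H^(2r-1)(Y)(r)) = 0` for all `i`. We show that these statements are equivalent to the
conjecture, even if only the middle cohomology groups `H^d(Y)(r)` of the log schemes `Y` of odd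
dimension `d = 2 r - 1` are considered.
-/

set_option autoImplicit false

open Module

universe u v w

namespace Pool.Agent.Results.MP_f8720a_ag.CentralPointsLog

open Pool.Agent.Y163.MW Pool.Agent.Y163.MW.Coh Pool.Agent.Q173.OG Pool.Agent.Q173.CP
  Pool.Agent.Q57.WM Pool.Agent.Q173.OS

section

variable {C : Type u} {Ω : Type w} [Field Ω] [CharZero Ω]

/-- The known properties of the cohomology of the class `C`:
* `base`: Frobenius, monodromy, Weil numbers, Poincare duality, Künneth formula; `P` is the
  filtration by the weights;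
* `test`, `split`, `top`, `dim`: `E` is a curve, `H^0(E) ≠ 0` contains a fixed element, Kato's
  conjecture holds for `E`, `N ≠ 0` and `N ^ 2 = 0` on `H^1(E)`, `H^1(E)` contains an element `≠ 0`
  fixed by `F` and killed by `N`, and `H^2(E)` contains an eigenvector for the eigenvalue `q`;
* `closed`, `goodRed`: `good` is not empty and closed under products, and for `good A` one has `N = 0`,
  the eigenvalues of `F` on `H^i(A)` have weight `i`, and `1` is an eigenvalue on `H^0(A)`;
* `partner`: the theorem of Honda and Tate. -/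
structure IsCentral (T : LogTheory.{u, v, w} C Ω) (q : ℕ) (E : C) (good : C → Prop) : Prop where
  base : T.IsKnown q
  test : T.IsTestCurve E
  split : Vec (T.H E) 1 1
  top : Vec (T.H E) 2 (q : Ω)
  dim : T.dim E = 1
  closed : IsClosed T.prod good
  goodRed : ∀ A, good A → IsGood (T.H A) q
  partner : HondaTate T.toPTheory q good

/-- There are no invariant elements in the groups `H^m(Y)(r)`, `m < 2 r - B`. -/
def NoTate (T : LogTheory.{u, v, w} C Ω) (q B : ℕ) (Y : C) : Prop :=
  ∀ m r : ℕ, m + B < 2 * r → H0Zero (T.H Y) q m r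

/-- `H^0(s, H^(2 r - 1)(Y)(r)) = 0` for all `r`. -/
def Central0 (T : LogTheory.{u, v, w} C Ω) (q : ℕ) (Y : C) : Prop :=
  ∀ m r : ℕ, m + 1 = 2 * r → H0Zero (T.H Y) q m r

/-- `H^1(s, H^(2 r - 1)(Y)(r)) = 0` for all `r`. -/
def Central1 (T : LogTheory.{u, v, w} C Ω) (q : ℕ) (Y : C) : Prop :=
  ∀ m r : ℕ, m + 1 = 2 * r → H1Zero (T.H Y) q m r

/-- `H^2(s, H^(2 r - 1)(Y)(r)) = 0` for all `r`. -/
def Central2 (T : LogTheory.{u, v, w} C Ω) (q : ℕ) (Y : C) : Prop :=
  ∀ m r : ℕ, m + 1 = 2 * r → H2Zero (T.H Y) q m r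

/-- If the dimension `d = 2 r - 1` of `Y` is odd, then `H^1(s, H^d(Y)(r)) = 0`. -/
def Middle1 (T : LogTheory.{u, v, w} C Ω) (q : ℕ) (Y : C) : Prop :=
  ∀ r : ℕ, T.dim Y + 1 = 2 * r → H1Zero (T.H Y) q (T.dim Y) r

/-- If the dimension `d = 2 r - 1` of `Y` is odd, then `H^0(s, H^d(Y)(r)) = 0`. -/
def Middle0 (T : LogTheory.{u, v, w} C Ω) (q : ℕ) (Y : C) : Prop :=
  ∀ r : ℕ, T.dim Y + 1 = 2 * r → H0Zero (T.H Y) q (T.dim Y) r

/-- All log schemes of the class. -/
def AllSchemes (T : LogTheory.{u, v, w} C Ω) (q : ℕ) : Prop :=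
  ((∀ X, T.Kato X) ↔ ∀ Y, Middle1 T q Y) ∧ ((∀ X, T.Kato X) ↔ ∀ Y, Middle0 T q Y) ∧
    ((∀ X, T.Kato X) ↔ ∀ Y, Central1 T q Y) ∧ (∀ B, (∀ X, T.Kato X) ↔ ∀ Y, NoTate T q B Y)

/-- One log scheme: if Kato's conjecture holds for `X` in the range `e > k + 1`, it is equivalent to
`H^1(s, H^(2 r - 1)(Y)(r)) = 0` for all `r`, and to `H^0(s, H^(2 r - 1)(Y)(r)) = 0` for all `r`,
`Y = X × E^k × A`, where `A` is a partner of `X × E^k`, and to the absence of invariants in
`H^m(Y)(r)`, `m < 2 r`, for `Y = X × X × A`, `A` a partner of `X × X`. -/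
def OneScheme (T : LogTheory.{u, v, w} C Ω) (q : ℕ) (E : C) (good : C → Prop) : Prop :=
  ∀ X : C,
    (∀ (k : ℕ) (A : C), T.KatoAbove X (k + 1) → good A →
      IsPartner T.toPTheory q A (T.stk X E k) →
        (T.Kato X ↔ Central1 T q (T.prod (T.stk X E k) A)) ∧
        (T.Kato X ↔ Central0 T q (T.prod (T.stk X E k) A))) ∧
    (∀ A : C, good A → IsPartner T.toPTheory q A (T.prod X X) →
      (T.Kato X ↔ NoTate T q 0 (T.prod (T.prod X X) A)))

/-- All the groups vanish if the conjecture holds. -/
def Vanishing (T : LogTheory.{u, v, w} C Ω) (q : ℕ) : Prop :=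
  ∀ Y, T.Kato Y → NoTate T q 0 Y ∧ Central0 T q Y ∧ Central1 T q Y ∧ Central2 T q Y

/-- Every log scheme has a partner. -/
def Partners (T : LogTheory.{u, v, w} C Ω) (q : ℕ) (good : C → Prop) : Prop :=
  ∀ Y, ∃ A, good A ∧ IsPartner T.toPTheory q A Y

lemma IsCentral.known [IsAlgClosed Ω] {T : LogTheory.{u, v, w} C Ω} {q : ℕ} {E : C}
    {good : C → Prop} (hq : 1 < q) (h : IsCentral T q E good) : Known T.toPTheory q E good where
  base := h.base.known
  test := T.isTest hq h.base h.test
  split := h.split
  top := h.top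
  dim := h.dim
  closed := h.closed
  goodRed := h.goodRed
  partner := h.partner

end

/-- **Kato's log monodromy-weight conjecture and Galois cohomology at the central points.** -/
theorem result {C : Type u} {Ω : Type w} [Field Ω] [CharZero Ω] [IsAlgClosed Ω]
    {T : LogTheory.{u, v, w} C Ω} {q : ℕ} {E : C} {good : C → Prop} (hq : 1 < q)
    (hC : IsCentral T q E good) :
    AllSchemes T q ∧ OneScheme T q E good ∧ Vanishing T q ∧ Partners T q good := by
  have hK := hC.known hq
  have hT := hK.base
  have hL := hC.base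
  have hq0 : (q : Ω) ≠ 0 := Nat.cast_ne_zero.2 (by omega)
  have hkato : ∀ X, T.Kato X ↔ ∀ m, (T.H X).MWPure q m := fun X => T.kato_iff hq hL X
  have hvan' : ∀ Y, (∀ m, (T.H Y).MWPure q m) →
      NoTate T q 0 Y ∧ Central0 T q Y ∧ Central1 T q Y ∧ Central2 T q Y := by
    intro Y hY
    have h0 : NoTate T q 0 Y := fun m r hm => (h0Zero_iff hq0).2 (no_tate hq hT hY (by omega))
    have h0' : Central0 T q Y := fun m r hm => h0 m r (by omega)
    have h2 : Central2 T q Y := fun m r hm => h2_of_pure hq (hT.pre Y) hm (hY m)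
    exact ⟨h0, h0', fun m r hm => h1_of hq (hT.pre Y) (h0' m r hm) (h2 m r hm), h2⟩
  have hvan : Vanishing T q := fun Y hY => hvan' Y ((hkato Y).1 hY)
  have h10 : ∀ Y, Central1 T q Y → Central0 T q Y :=
    fun Y h m r hm => h0_of_h1 (hT.pre Y) (h m r hm)
  have hpart : Partners T q good := fun Y => exists_partner hK hq Y
  have hall0 : (∀ Y, Middle0 T q Y) → ∀ X, T.Kato X := by
    intro h X
    by_contra hX
    rw [hkato] at hX
    obtain ⟨l, j, α, wt, hv, hw, hj⟩ := bad_stk hK hq hX
    obtain ⟨A, b, -, m, r, hm, hx⟩ := central_of_vec hK hq hv hw hj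
    obtain ⟨Y, r', hr', hy⟩ := mid_of_central hK hm hx
    exact (h0Zero_iff hq0).1 (h Y r' hr') hy
  have hmid : ∀ Y, Middle1 T q Y → Middle0 T q Y :=
    fun Y h r hr => h0_of_h1 (hT.pre Y) (h r hr)
  refine ⟨⟨?_, ?_, ?_, ?_⟩, ?_, hvan, hpart⟩
  · exact ⟨fun h Y r hr => (hvan Y (h Y)).2.2.1 _ r hr, fun h => hall0 fun Y => hmid Y (h Y)⟩
  · exact ⟨fun h Y r hr => (hvan Y (h Y)).2.1 _ r hr, hall0⟩
  · exact ⟨fun h Y => (hvan Y (h Y)).2.2.1, fun h => hall0 fun Y r hr => h10 Y (h Y) _ r hr⟩
  · intro B
    constructor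
    · intro h Y m r hm
      exact (hvan Y (h Y)).1 m r (by omega)
    · intro h X
      by_contra hX
      rw [hkato] at hX
      obtain ⟨A, hA, hp⟩ := hpart (T.prod X X)
      obtain ⟨m, r, hm, hx⟩ := low_of_bad hK hq hA hp hX
      have h1 := vec_pw hK hx B
      rw [← pow_mul] at h1
      refine (h0Zero_iff hq0).1 (h _ ((B + 1) * m) (r * (B + 1)) ?_) h1
      nlinarith
  · intro X
    refine ⟨fun k A hk hA hp => ?_, fun A hA hp => ?_⟩
    · have hk' := (T.katoAbove_iff hq hL X (k + 1)).1 hk
      have hgo : (∀ m, (T.H X).MWPure q m) →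
          ∀ m, (T.H (T.prod (T.stk X E k) A)).MWPure q m := fun h =>
        pure_prod hq hT (pure_stk hq hT h hK.test.pure k)
          (pure_good hq hT (hK.goodRed A hA).trivial
            fun i α x hx h0 hF => (hK.goodRed A hA).pure i α ⟨x, hx, h0, hF⟩)
      have hback : Central0 T q (T.prod (T.stk X E k) A) → ∀ m, (T.H X).MWPure q m := by
        intro h
        by_contra hX
        obtain ⟨m, r, hm, hx⟩ := central_of_bad hK hq hA hp hk' hX
        exact (h0Zero_iff hq0).1 (h m r hm) hx
      rw [hkato]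
      exact ⟨⟨fun h => (hvan' _ (hgo h)).2.2.1, fun h => hback (h10 _ h)⟩,
        ⟨fun h => (hvan' _ (hgo h)).2.1, hback⟩⟩
    · rw [hkato]
      constructor
      · intro h
        exact (hvan' _ (pure_prod hq hT (pure_prod hq hT h h)
          (pure_good hq hT (hK.goodRed A hA).trivial
            fun i α x hx h0 hF => (hK.goodRed A hA).pure i α ⟨x, hx, h0, hF⟩))).1
      · intro h
        by_contra hX
        obtain ⟨m, r, hm, hx⟩ := low_of_bad hK hq hA hp hX
        exact (h0Zero_iff hq0).1 (h m r (by omega)) hx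

end Pool.Agent.Results.MP_f8720a_ag.CentralPointsLog
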