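import Pool.Agent.Q173.OG.Log

/-!
# MP_f8720a_ag: Kato's log `l`-adic monodromy-weight conjecture and one-sided inclusions

`C` is the class of the projective log schemes over a log point `s` over a finite field with `q`
elements which have an SNCL log blow-up (geometrically connected, of pure dimension). It is closed
under products (the product of two semistable log schemes over `s` has an SNCL log blow-up, given by
a subdivision, and log blow-ups do not change the Kummer log étale cohomology and its weight
filtration). `LogTheory C Ω` is the cohomology `H^j = H^j(X_{1/l^∞})` (after base change to a field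
which contains the `l`-power roots of unity), with the Frobenius `F`, the monodromy operator `N` and
the weight filtrations `P`; `IsKnown` are the known properties which are used: `N F = q F N`,
Poincare duality, Künneth formula, and (Weil conjectures) the weight filtration `P` is the filtration
by the weights of `F`. Families over an arbitrary `S` reduce to a point (see the problem), and points
to finite fields by specialization.

Kato's conjecture for `X` (the filtration `P` is the monodromy filtration) is equivalent to the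
inclusions

  `Ker N ∩ H^j(Y) ⊆ P_(j + n) H^j(Y)`  for all `j`

for one log scheme `Y = (X × E^k)^(n + 1)` (any `n ≥ 0`), where `E` is a degenerate elliptic curve (a
cycle of projective lines) and `k + 1` is a number such that the conjecture is known for `e > k + 1`,
for instance `k + 1 = dim X`. For `n = 0` the inclusion is `Ker N ⊆ P_j H^j`, the log local invariant
cycle property of `X × E^k`. It is also equivalent to the inclusions
`Ker N ∩ H^j(Y) ⊆ P_(j + 2 n + 1) H^j(Y)` for `Y = (X × X)^(n + 1)`, and it holds for all members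
of the class if and only if `Ker N ∩ H^j(Y) ⊆ P_(j + o(dim Y)) H^j(Y)`.
-/

set_option autoImplicit false

open Module

universe u v w

namespace Pool.Agent.Results.MP_f8720a_ag.OneSidedLog

open Pool.Agent.Y143 Pool.Agent.Y163.MW Pool.Agent.Q57.WM Pool.Agent.Q173.OS Pool.Agent.Q173.OG

section

variable {C : Type u} {Ω : Type w} [Field Ω] [CharZero Ω]

/-- Kato's conjecture for `X` is equivalent to `Ker N ∩ H^j(Y) ⊆ P_(j + n) H^j(Y)` for all `j`,
`Y = (X × E^k)^(n + 1)`, and then even `Ker N ∩ H^j(Y) ⊆ P_j H^j(Y)` for all
`Y = (X × E^a)^(n + 1)`. -/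
def TestCurve (T : LogTheory.{u, v, w} C Ω) : Prop :=
  ∀ (X E : C), T.IsTestCurve E → ∀ k : ℕ, T.KatoAbove X (k + 1) →
    (∀ n : ℕ, T.Kato X ↔ T.Cyc (T.pw (T.stk X E k) n) n) ∧
      (T.Kato X → ∀ a n, T.Cyc (T.pw (T.stk X E a) n) 0)

/-- Kato's conjecture for `X` is equivalent to `Ker N ∩ H^j(Y) ⊆ P_(j + 2 n + 1) H^j(Y)` for all `j`,
`Y = (X × X)^(n + 1)`, and then even `Ker N ∩ H^j(Y) ⊆ P_j H^j(Y)`. -/
def Squares (T : LogTheory.{u, v, w} C Ω) : Prop :=
  ∀ (X : C) (n : ℕ), (T.Kato X ↔ T.Cyc (T.pw (T.prod X X) n) (2 * n + 1)) ∧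
    (T.Kato X → T.Cyc (T.pw (T.prod X X) n) 0)

/-- Kato's conjecture holds for all `X` of dimension `≥ 1` of the class if and only if for every
`ε > 0` the inclusion `Ker N ∩ H^j(Y) ⊆ P_(j + ε dim Y) H^j(Y)` holds for `dim Y ≥ D(ε)`. -/
def Uniform (T : LogTheory.{u, v, w} C Ω) : Prop :=
  (∀ X : C, 1 ≤ T.dim X → T.Kato X) ↔
    ∀ ε : ℝ, 0 < ε → ∃ D : ℕ, ∀ Y : C, D ≤ T.dim Y → T.Cyc Y ⌊ε * T.dim Y⌋

end

/-- **Kato's log monodromy-weight conjecture and one-sided inclusions.** -/
theorem result {C : Type u} {Ω : Type w} [Field Ω] [CharZero Ω] [IsAlgClosed Ω]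
    {T : LogTheory.{u, v, w} C Ω} {q : ℕ} (hq : 1 < q) (hT : T.IsKnown q) :
    TestCurve T ∧ Squares T ∧ Uniform T := by
  refine ⟨?_, ?_, ?_⟩
  · intro X E hE k hk
    have hE' := T.isTest hq hT hE
    have hk' := (T.katoAbove_iff hq hT X (k + 1)).1 hk
    constructor
    · intro n
      rw [T.kato_iff hq hT, T.cyc_iff hq hT]
      exact ⟨fun h => (T.bound_stk hq hT.known h hE' k n).mono (by omega),
        fun h => T.pure_of_stk hq hT.known hE' hk' n h⟩
    · intro h a n
      rw [T.cyc_iff hq hT]
      exact T.bound_stk hq hT.known ((T.kato_iff hq hT X).1 h) hE' a n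
  · intro X n
    rw [T.kato_iff hq hT, T.cyc_iff hq hT, T.cyc_iff hq hT]
    exact ⟨⟨fun h => (T.bound_square hq hT.known h n).mono (by omega),
      fun h => T.pure_of_square hq hT.known n h⟩, fun h => T.bound_square hq hT.known h n⟩
  · have h := T.uniform hq hT.known
    unfold Uniform
    simp only [T.kato_iff hq hT, T.cyc_iff hq hT]
    exact h

end Pool.Agent.Results.MP_f8720a_ag.OneSidedLog
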