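import Pool.Agent.Q57.PL.LogRank

/-!
# MP_f8720a_ag: the ranks of the powers of the monodromy operator and the weights on the log `ℓ`-adic
# cohomology

`LogCoh` is the log `ℓ`-adic cohomology `H^*` of a proper SNCL scheme `X` over a log point over the
finite field with `q` elements (with coefficients in an algebraically closed field of characteristic
zero, for instance an algebraic closure of `ℚ_ℓ`), with the Frobenius `F`, the monodromy operator `N`
and the weight filtration `P`; `LogCoh.IsKnown` lists the known properties. `X` is not supposed to be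
projective: the inequality below holds for all proper `X`, and Kato's conjecture says that it is an
equality for projective `X`.
-/

namespace Pool.Agent.Results.MP_f8720a_ag.RankCriterion

open Pool.Agent.Q57.PL

universe v w

variable {Ω : Type w} [Field Ω] [CharZero Ω]

/-- The inequalities and the criterion: for all `j` and `k` one has
`2 (rank N ^ (k + 1) + rank N ^ (k + 2) + ...) ≤ ∑ e > k, (2 (e - k) - 1)
(dim gr^P_(j + e) H^j + dim gr^P_(j - e) H^j)`, with equality if and only if
`N ^ e : gr^P_(j + e) H^j → gr^P_(j - e) H^j` is an isomorphism for all `e > k`; the case `k = 0` is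
Kato's conjecture for `H^j`, and Kato's conjecture for all `H^j` is the equality of the two sums over
all `j`. -/
def Criterion (R : LogCoh.{v, w} Ω) : Prop :=
  (∀ j k : ℕ, 2 * R.ranks j k ≤ R.weights j k ∧
    (2 * R.ranks j k = R.weights j k ↔ R.Kato j k)) ∧
  ((∀ j, R.Kato j 0) ↔ 2 * ∑ᶠ j : ℕ, R.ranks j 0 = ∑ᶠ j : ℕ, R.weights j 0)

/-- The transfer: if the graded pieces of `H^j` and `H'^j` have the same dimensions and Kato's
conjecture holds for `H^j` in the range `e > k` then the ranks of the powers of `N` on `H'^j` are at
most those on `H^j`, and Kato's conjecture holds for `H'^j` in the range `e > k` if and only if they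
are equal. -/
def Transfer {Ω' : Type w} [Field Ω'] [CharZero Ω'] (R : LogCoh.{v, w} Ω)
    (R' : LogCoh.{v, w} Ω') : Prop :=
  ∀ j k : ℕ, (∀ i : ℤ, R.gradedDim j i = R'.gradedDim j i) → R.Kato j k →
    R'.ranks j k ≤ R.ranks j k ∧ (R'.ranks j k = R.ranks j k ↔ R'.Kato j k)

/-- Kato's conjecture for `H^j` is an equality between two integers of which the first is always at
most the second: twice the sum of the ranks of the powers of `N`, and the sum of the numbers
`(2 e - 1) (dim gr^P_(j + e) H^j + dim gr^P_(j - e) H^j)`; the same holds in the range `e > k` for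
every `k`. The conjecture can be transferred between different primes, varieties, finite fields. -/
theorem result :
    (∀ (Ω : Type w) [Field Ω] [CharZero Ω] [IsAlgClosed Ω] (q : ℕ), 1 < q →
      ∀ R : LogCoh.{v, w} Ω, R.IsKnown q → Criterion R) ∧
    (∀ (Ω Ω' : Type w) [Field Ω] [CharZero Ω] [IsAlgClosed Ω] [Field Ω'] [CharZero Ω']
      [IsAlgClosed Ω'] (q q' : ℕ), 1 < q → 1 < q' →
      ∀ (R : LogCoh.{v, w} Ω) (R' : LogCoh.{v, w} Ω'), R.IsKnown q → R'.IsKnown q' →
        Transfer R R') := by
  refine ⟨fun Ω _ _ _ q hq R hR => ⟨fun j k => R.rank_criterion hq hR j k,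
    (R.rank_criterion_all hq hR 0).symm⟩, ?_⟩
  intro Ω Ω' _ _ _ _ _ _ q q' hq hq' R R' hR hR' j k hdim hK
  have h1 := (R.rank_criterion hq hR j k).2.2 hK
  have h2 := R'.rank_criterion hq' hR' j k
  have h3 : R.weights j k = R'.weights j k := by
    unfold LogCoh.weights
    refine finsum_congr fun e => ?_
    rw [hdim, hdim]
  refine ⟨by have := h2.1; omega, ?_⟩
  rw [← h2.2]
  omega

end Pool.Agent.Results.MP_f8720a_ag.RankCriterion
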